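import Mathlib

/-!
# The dimension of a product of two posets

We disprove the inequality `dim (P × Q) ≥ dim P + dim Q - b(P, Q)`, where `b(P, Q)` is the number
of posets among `P`, `Q` that do not have both a least and a greatest element.

The counterexample is `P = S₃`, the three-dimensional standard example (the six-element crown,
which is connected), and `Q = 2 × 2`, the four-element Boolean lattice (which is bounded, so that
`b(P, Q) = 1`).  Here `dim P = 3`, `dim Q = 2` and `dim (P × Q) = 3`.
-/

namespace Pool.Agent.Results.MP_fd346d_co.ProductDimension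

/-- `r` is a (reflexive, total) linear order relation. -/
structure IsLinear {P : Type} (r : P → P → Prop) : Prop where
  refl : ∀ x, r x x
  trans : ∀ x y z, r x y → r y z → r x z
  antisymm : ∀ x y, r x y → r y x → x = y
  total : ∀ x y, r x y ∨ r y x

/-- The order of `P` is the intersection of `d` linear extensions of `P`. -/
def HasRealizer (P : Type) [PartialOrder P] (d : ℕ) : Prop :=
  ∃ L : Fin d → P → P → Prop,
    (∀ i, IsLinear (L i)) ∧ (∀ i x y, x ≤ y → L i x y) ∧
      ∀ x y, (∀ i, L i x y) → x ≤ y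

/-- `dim P = d`: the least number `d` such that the order of `P` is the intersection of `d`
linear extensions of `P`. -/
def HasDim (P : Type) [PartialOrder P] (d : ℕ) : Prop :=
  IsLeast {d : ℕ | HasRealizer P d} d

/-- `P` is bounded: it has a least element and a greatest element. -/
def Bounded (P : Type) [PartialOrder P] : Prop :=
  (∃ x : P, ∀ y, x ≤ y) ∧ ∃ x : P, ∀ y, y ≤ x

open Classical in
/-- `b(P, Q)`, the number of posets among `P` and `Q` that are not bounded. -/
noncomputable def b (P Q : Type) [PartialOrder P] [PartialOrder Q] : ℕ :=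
  (if Bounded P then 0 else 1) + (if Bounded Q then 0 else 1)

/-- `P` is connected: any two elements are joined by a finite chain of comparabilities. -/
def Connected (P : Type) [PartialOrder P] : Prop :=
  ∀ x y : P, Relation.ReflTransGen (fun u v : P => u ≤ v ∨ v ≤ u) x y

/-- The standard example `S₃`: elements `a₀, a₁, a₂` (with `up = false`) and `b₀, b₁, b₂`
(with `up = true`), the only strict comparabilities being `aᵢ < bⱼ` for `i ≠ j`. -/
structure S3 where
  /-- the index -/
  i : Fin 3
  /-- `true` for the upper elements -/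
  up : Bool
deriving DecidableEq

/-- `S3` has six elements. -/
def S3.equiv : S3 ≃ Fin 3 × Bool where
  toFun x := (x.i, x.up)
  invFun x := ⟨x.1, x.2⟩
  left_inv _ := rfl
  right_inv _ := rfl

instance : Fintype S3 := Fintype.ofEquiv _ S3.equiv.symm

/-- The order of `S₃`. -/
def S3.le (x y : S3) : Prop := x = y ∨ (x.up = false ∧ y.up = true ∧ x.i ≠ y.i)

instance : DecidableRel S3.le := fun x y => by unfold S3.le; infer_instance

instance : PartialOrder S3 where
  le := S3.le
  le_refl x := Or.inl rfl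
  le_trans := by decide
  le_antisymm := by decide

instance : DecidableRel ((· ≤ ·) : S3 → S3 → Prop) := inferInstanceAs (DecidableRel S3.le)

/-- Code of an element of `S₃ × (2 × 2)`. -/
def code (x : S3 × (Bool × Bool)) : ℕ :=
  4 * (x.1.i.1 + (if x.1.up then 3 else 0)) + (2 * (if x.2.1 then 1 else 0) +
    (if x.2.2 then 1 else 0))

/-- Positions of the elements in three linear extensions. -/
def table : Fin 3 → List ℕ := ![
  [12, 14, 18, 20, 0, 6, 1, 7, 2, 8, 3, 9, 4, 10, 5, 11, 16, 17, 22, 23, 13, 15, 19, 21],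
  [2, 8, 4, 10, 0, 6, 1, 7, 12, 13, 18, 19, 14, 15, 20, 21, 16, 17, 22, 23, 3, 9, 5, 11],
  [0, 6, 1, 7, 12, 13, 18, 19, 2, 8, 3, 9, 14, 15, 20, 21, 4, 10, 5, 11, 16, 17, 22, 23]]

/-- Position of an element in the `k`-th linear extension. -/
def rank (k : Fin 3) (x : S3 × (Bool × Bool)) : ℕ := (table k).getD (code x) 0

theorem rank_le_iff : ∀ x y : S3 × (Bool × Bool), x ≤ y ↔ ∀ k, rank k x ≤ rank k y := by
  decide +kernel

theorem rank_inj : ∀ k, ∀ x y : S3 × (Bool × Bool), rank k x = rank k y → x = y := by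
  decide +kernel

theorem prod_realizer : HasRealizer (S3 × (Bool × Bool)) 3 := by
  refine ⟨fun k x y => rank k x ≤ rank k y, fun k => ⟨?_, ?_, ?_, ?_⟩, ?_, ?_⟩
  · intro x; exact le_rfl
  · intro x y z h1 h2; exact h1.trans h2
  · intro x y h1 h2; exact rank_inj k x y (le_antisymm h1 h2)
  · intro x y; exact le_total _ _
  · intro k x y h; exact (rank_le_iff x y).1 h k
  · intro x y h; exact (rank_le_iff x y).2 h

/-- A realizer of a poset restricts to a subposet. -/
theorem HasRealizer.of_embedding {P Q : Type} [PartialOrder P] [PartialOrder Q] {d : ℕ}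
    (h : HasRealizer Q d) (f : P ↪o Q) : HasRealizer P d := by
  obtain ⟨L, h1, h2, h3⟩ := h
  refine ⟨fun k x y => L k (f x) (f y), fun k => ⟨?_, ?_, ?_, ?_⟩, ?_, ?_⟩
  · intro x; exact (h1 k).refl _
  · intro x y z; exact (h1 k).trans _ _ _
  · intro x y hx hy; exact f.injective ((h1 k).antisymm _ _ hx hy)
  · intro x y; exact (h1 k).total _ _
  · intro k x y h; exact h2 k _ _ (f.le_iff_le.2 h)
  · intro x y h; exact f.le_iff_le.1 (h3 _ _ h)

/-- `S₃` has dimension at least three. -/
theorem three_le_of_realizer {d : ℕ} (h : HasRealizer S3 d) : 3 ≤ d := by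
  obtain ⟨L, h1, h2, h3⟩ := h
  have hrev : ∀ i : Fin 3, ∃ k, ¬ L k ⟨i, false⟩ ⟨i, true⟩ := by
    intro i
    by_contra hcon
    push Not at hcon
    have hnot : ∀ i : Fin 3, ¬ ((⟨i, false⟩ : S3) ≤ ⟨i, true⟩) := by decide
    exact hnot i (h3 _ _ hcon)
  choose k hk using hrev
  have hinj : Function.Injective k := by
    intro i j hij
    by_contra hne
    have hlt1 : (⟨i, false⟩ : S3) ≤ ⟨j, true⟩ := Or.inr ⟨rfl, rfl, hne⟩
    have hlt2 : (⟨j, false⟩ : S3) ≤ ⟨i, true⟩ := Or.inr ⟨rfl, rfl, fun h => hne h.symm⟩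
    have e1 := h2 (k i) _ _ hlt1
    have e2 := h2 (k i) _ _ hlt2
    have e3 : L (k i) ⟨j, true⟩ ⟨j, false⟩ := by
      rcases (h1 (k i)).total ⟨j, true⟩ ⟨j, false⟩ with h | h
      · exact h
      · rw [hij] at h; exact absurd h (hk j)
    exact hk i ((h1 (k i)).trans _ _ _ e1 ((h1 (k i)).trans _ _ _ e3 e2))
  have := Fintype.card_le_of_injective k hinj
  simpa using this

/-- The Boolean lattice `2 × 2` has dimension at least two. -/
theorem two_le_of_realizer {d : ℕ} (h : HasRealizer (Bool × Bool) d) : 2 ≤ d := by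
  obtain ⟨L, h1, h2, h3⟩ := h
  by_contra hd
  push Not at hd
  have hsub : ∀ k k' : Fin d, k = k' := by
    intro k k'
    apply Fin.ext
    omega
  have hcomp : ∀ x y : Bool × Bool, x ≤ y ∨ y ≤ x := by
    intro x y
    by_contra hcon
    push Not at hcon
    have hx : ∃ k, ¬ L k x y := by
      by_contra hc
      push Not at hc
      exact hcon.1 (h3 _ _ hc)
    have hy : ∃ k, ¬ L k y x := by
      by_contra hc
      push Not at hc
      exact hcon.2 (h3 _ _ hc)
    obtain ⟨k, hk⟩ := hx
    obtain ⟨k', hk'⟩ := hy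
    rw [hsub k' k] at hk'
    rcases (h1 k).total x y with h | h
    · exact hk h
    · exact hk' h
  have := hcomp (true, false) (false, true)
  revert this
  decide

/-- Positions in two linear extensions of `2 × 2`. -/
def rankB (k : Fin 2) (x : Bool × Bool) : ℕ :=
  if k = 0 then 2 * x.1.toNat + x.2.toNat else x.1.toNat + 2 * x.2.toNat

theorem rankB_le_iff : ∀ x y : Bool × Bool, x ≤ y ↔ ∀ k, rankB k x ≤ rankB k y := by
  decide

theorem rankB_inj : ∀ k, ∀ x y : Bool × Bool, rankB k x = rankB k y → x = y := by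
  decide

theorem bool_realizer : HasRealizer (Bool × Bool) 2 := by
  refine ⟨fun k x y => rankB k x ≤ rankB k y, fun k => ⟨?_, ?_, ?_, ?_⟩, ?_, ?_⟩
  · intro x; exact le_rfl
  · intro x y z h1 h2; exact h1.trans h2
  · intro x y h1 h2; exact rankB_inj k x y (le_antisymm h1 h2)
  · intro x y; exact le_total _ _
  · intro k x y h; exact (rankB_le_iff x y).1 h k
  · intro x y h; exact (rankB_le_iff x y).2 h

/-- `S₃` embeds in `S₃ × (2 × 2)`. -/
def emb : S3 ↪o S3 × (Bool × Bool) where
  toFun x := (x, (false, false))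
  inj' x y h := (Prod.ext_iff.1 h).1
  map_rel_iff' := by
    intro x y
    constructor
    · intro h; exact h.1
    · intro h; exact ⟨h, le_rfl⟩

theorem dim_S3 : HasDim S3 3 :=
  ⟨prod_realizer.of_embedding emb, fun _ h => three_le_of_realizer h⟩

theorem dim_bool : HasDim (Bool × Bool) 2 :=
  ⟨bool_realizer, fun _ h => two_le_of_realizer h⟩

theorem dim_prod : HasDim (S3 × (Bool × Bool)) 3 :=
  ⟨prod_realizer, fun _ h => three_le_of_realizer (HasRealizer.of_embedding h emb)⟩

theorem bounded_bool : Bounded (Bool × Bool) :=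
  ⟨⟨(false, false), by decide⟩, ⟨(true, true), by decide⟩⟩

theorem not_bounded_S3 : ¬ Bounded S3 := by
  rintro ⟨⟨x, hx⟩, _⟩
  revert hx
  revert x
  decide

theorem b_eq : b S3 (Bool × Bool) = 1 := by
  simp [b, bounded_bool, not_bounded_S3]

theorem connected_S3 : Connected S3 := by
  have hstep : ∀ x y : S3, ∃ u v : S3, (x ≤ u ∨ u ≤ x) ∧ (u ≤ v ∨ v ≤ u) ∧ (v ≤ y ∨ y ≤ v) := by
    decide
  intro x y
  obtain ⟨u, v, h1, h2, h3⟩ := hstep x y
  have e1 : Relation.ReflTransGen (fun u v : S3 => u ≤ v ∨ v ≤ u) x u :=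
    Relation.ReflTransGen.single h1
  have e2 : Relation.ReflTransGen (fun u v : S3 => u ≤ v ∨ v ≤ u) x v := e1.tail h2
  exact e2.tail h3

/-- **Main theorem.**  The inequality `dim (P × Q) ≥ dim P + dim Q - b(P, Q)` fails for some finite
nonempty posets `P`, `Q`: there are a connected finite poset `P` (the standard example `S₃`, not
bounded) and a bounded finite poset `Q` (the Boolean lattice `2 × 2`) with `dim P = 3`,
`dim Q = 2`, `b(P, Q) = 1` and `dim (P × Q) = 3`. -/
theorem result :
    (¬ ∀ (P Q : Type) [PartialOrder P] [PartialOrder Q] [Nonempty P] [Nonempty Q] (p q r : ℕ),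
      HasDim P p → HasDim Q q → HasDim (P × Q) r → (p : ℤ) + q - b P Q ≤ r) ∧
    ∃ (P Q : Type) (_ : PartialOrder P) (_ : PartialOrder Q) (_ : Fintype P) (_ : Fintype Q),
      Nonempty P ∧ Nonempty Q ∧ Connected P ∧ ¬ Bounded P ∧ Bounded Q ∧ b P Q = 1 ∧
      HasDim P 3 ∧ HasDim Q 2 ∧ HasDim (P × Q) 3 := by
  have hne1 : Nonempty S3 := ⟨⟨0, true⟩⟩
  have hne2 : Nonempty (Bool × Bool) := ⟨(true, true)⟩
  refine ⟨fun h => ?_, S3, Bool × Bool, inferInstance, inferInstance, inferInstance,
    inferInstance, hne1, hne2, connected_S3, not_bounded_S3, bounded_bool, b_eq, dim_S3, dim_bool,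
    dim_prod⟩
  have := h S3 (Bool × Bool) 3 2 3 dim_S3 dim_bool dim_prod
  rw [b_eq] at this
  norm_num at this

end Pool.Agent.Results.MP_fd346d_co.ProductDimension
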